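import Mathlib

/-!
# The sign cocycle of a Coxeter system (strong exchange)
-/

set_option autoImplicit false
open Classical

namespace Pool.Agent.Helper15.CX

/-- indicator in `ZMod 2` -/
noncomputable def ind {W : Type*} (a b : W) : ZMod 2 := if a = b then 1 else 0

theorem ind_self {W : Type*} (a : W) : ind a a = 1 := if_pos rfl

variable {B W : Type*} [Group W] {M : CoxeterMatrix B} (cs : CoxeterSystem M W)

/-- the action of a simple reflection -/
noncomputable def gfun (i : B) (p : W × ZMod 2) : W × ZMod 2 :=
  (cs.simple i * p.1 * cs.simple i, p.2 + ind p.1 (cs.simple i))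

theorem ind_conj (i : B) (x : W) : ind (cs.simple i * x * cs.simple i) (cs.simple i) = ind x (cs.simple i) := by
  unfold ind
  have : cs.simple i * x * cs.simple i = cs.simple i ↔ x = cs.simple i := by
    constructor
    · intro h
      have h2 : cs.simple i * (cs.simple i * x * cs.simple i) * cs.simple i = cs.simple i * cs.simple i * cs.simple i := by
        rw [h]
      simpa [mul_assoc] using h2
    · rintro rfl; simp
  simp only [this]

theorem gfun_gfun (i : B) (p : W × ZMod 2) : gfun cs i (gfun cs i p) = p := by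
  unfold gfun
  have h2 : ∀ a : ZMod 2, a + a = 0 := by decide
  refine Prod.ext ?_ ?_
  · simp [mul_assoc]
  · show p.2 + ind p.1 (cs.simple i) + ind (cs.simple i * p.1 * cs.simple i) (cs.simple i) = p.2
    rw [ind_conj, add_assoc, h2, add_zero]

/-- the action of a simple reflection as a permutation -/
noncomputable def gperm (i : B) : Equiv.Perm (W × ZMod 2) where
  toFun := gfun cs i
  invFun := gfun cs i
  left_inv := gfun_gfun cs i
  right_inv := gfun_gfun cs i

theorem gperm_apply (i : B) (p : W × ZMod 2) : gperm cs i p = gfun cs i p := rfl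

theorem pow_apply (i j : B) (k : ℕ) (x : W) (e : ZMod 2) :
    ((gperm cs i * gperm cs j) ^ k) (x, e) =
      ((cs.simple i * cs.simple j) ^ k * x * ((cs.simple i * cs.simple j) ^ k)⁻¹,
        e + ∑ q ∈ Finset.range (2 * k), ind x (((cs.simple i * cs.simple j) ^ q)⁻¹ * cs.simple j)) := by
  set u := cs.simple i * cs.simple j with hu
  have hui : u⁻¹ = cs.simple j * cs.simple i := by rw [hu]; simp
  have hju : ∀ k : ℕ, cs.simple j * u ^ k = (u ^ k)⁻¹ * cs.simple j := by
    intro k
    induction k with
    | zero => simp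
    | succ k ih =>
      rw [pow_succ, ← mul_assoc, ih, mul_assoc]
      have : cs.simple j * u = u⁻¹ * cs.simple j := by rw [hui, hu]; simp [mul_assoc]
      rw [this, ← mul_assoc, ← mul_inv_rev, ← pow_succ', ← pow_succ]
  induction k with
  | zero => simp
  | succ k ih =>
    rw [pow_succ', Equiv.Perm.mul_apply, ih]
    show gfun cs i (gfun cs j _) = _
    unfold gfun
    refine Prod.ext ?_ ?_
    · show cs.simple i * (cs.simple j * (u ^ k * x * (u ^ k)⁻¹) * cs.simple j) * cs.simple i = _
      rw [pow_succ', mul_inv_rev, hui, hu]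
      simp only [mul_assoc]
    · show e + ∑ q ∈ Finset.range (2 * k), ind x ((u ^ q)⁻¹ * cs.simple j) + ind (u ^ k * x * (u ^ k)⁻¹) (cs.simple j) +
        ind (cs.simple j * (u ^ k * x * (u ^ k)⁻¹) * cs.simple j) (cs.simple i) = _
      rw [show 2 * (k + 1) = 2 * k + 1 + 1 by ring, Finset.sum_range_succ, Finset.sum_range_succ]
      have h1 : ind (u ^ k * x * (u ^ k)⁻¹) (cs.simple j) = ind x ((u ^ (2 * k))⁻¹ * cs.simple j) := by
        unfold ind
        have : u ^ k * x * (u ^ k)⁻¹ = cs.simple j ↔ x = (u ^ (2 * k))⁻¹ * cs.simple j := by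
          rw [two_mul, pow_add, mul_inv_rev, mul_assoc (u ^ k)⁻¹, ← hju k]
          constructor
          · intro h
            rw [← h]; group
          · intro h
            rw [h]; group
        simp only [this]
      have h2 : ind (cs.simple j * (u ^ k * x * (u ^ k)⁻¹) * cs.simple j) (cs.simple i) =
          ind x ((u ^ (2 * k + 1))⁻¹ * cs.simple j) := by
        unfold ind
        have : cs.simple j * (u ^ k * x * (u ^ k)⁻¹) * cs.simple j = cs.simple i ↔
            x = (u ^ (2 * k + 1))⁻¹ * cs.simple j := by
          have h3 : (u ^ (2 * k + 1))⁻¹ * cs.simple j =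
              (u ^ k)⁻¹ * (cs.simple j * cs.simple i * cs.simple j) * u ^ k := by
            rw [← hui, mul_assoc (u ^ k)⁻¹, mul_assoc u⁻¹, hju k, show 2 * k + 1 = k + 1 + k by ring, pow_add, pow_succ',
              mul_inv_rev, mul_inv_rev]
            group
          rw [h3]
          constructor
          · intro h
            rw [← h]
            simp [mul_assoc]
          · intro h
            rw [h]
            simp [mul_assoc]
        simp only [this]
      rw [h1, h2]
      ring

theorem liftable : M.IsLiftable (gperm cs) := by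
  intro i j
  have h2 : ∀ a : ZMod 2, a + a = 0 := by decide
  ext1 ⟨x, e⟩
  rw [pow_apply cs]
  rw [cs.simple_mul_simple_pow]
  refine Prod.ext (by simp) ?_
  show e + _ = e
  rw [two_mul, Finset.sum_range_add]
  have : ∀ q, ind x (((cs.simple i * cs.simple j) ^ (M i j + q))⁻¹ * cs.simple j) =
      ind x (((cs.simple i * cs.simple j) ^ q)⁻¹ * cs.simple j) := by
    intro q
    rw [pow_add, cs.simple_mul_simple_pow, one_mul]
  simp only [this]
  rw [h2, add_zero]

/-- the action of the group -/
noncomputable def phi : W →* Equiv.Perm (W × ZMod 2) := cs.lift ⟨gperm cs, liftable cs⟩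

theorem phi_simple (i : B) : phi cs (cs.simple i) = gperm cs i := cs.lift_apply_simple (liftable cs) i

/-- the cocycle -/
noncomputable def N (w x : W) : ZMod 2 := (phi cs w (x, 0)).2

theorem phi_apply (w : W) : ∀ (x : W) (e : ZMod 2), phi cs w (x, e) = (w * x * w⁻¹, e + N cs w x) := by
  refine cs.simple_induction_left (p := fun w => ∀ (x : W) (e : ZMod 2),
    phi cs w (x, e) = (w * x * w⁻¹, e + N cs w x)) w ?_ ?_
  · intro x e
    simp [N]
  · intro w i ih x e
    have h : ∀ e' : ZMod 2, phi cs (cs.simple i * w) (x, e') = (cs.simple i * (w * x * w⁻¹) * cs.simple i,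
        e' + N cs w x + ind (w * x * w⁻¹) (cs.simple i)) := by
      intro e'
      rw [map_mul, Equiv.Perm.mul_apply, ih, phi_simple, gperm_apply]
      rfl
    have h3 : N cs (cs.simple i * w) x = 0 + N cs w x + ind (w * x * w⁻¹) (cs.simple i) := by
      unfold N; rw [h]; rfl
    rw [h, h3]
    refine Prod.ext ?_ ?_
    · simp [mul_assoc]
    · show e + N cs w x + ind (w * x * w⁻¹) (cs.simple i) = e + (0 + N cs w x + ind (w * x * w⁻¹) (cs.simple i))
      ring

theorem N_mul (v w x : W) : N cs (v * w) x = N cs w x + N cs v (w * x * w⁻¹) := by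
  have h : phi cs (v * w) (x, 0) = phi cs v (phi cs w (x, 0)) := by rw [map_mul]; rfl
  rw [phi_apply, phi_apply, phi_apply] at h
  have := congrArg Prod.snd h
  simpa using this

theorem N_one (x : W) : N cs 1 x = 0 := by
  unfold N; simp

theorem N_simple (i : B) (x : W) : N cs (cs.simple i) x = ind x (cs.simple i) := by
  unfold N
  rw [phi_simple, gperm_apply]
  show 0 + ind x (cs.simple i) = _
  rw [zero_add]

theorem N_wordProd (ω : List B) (x : W) (h : N cs (cs.wordProd ω) x ≠ 0) : x ∈ cs.rightInvSeq ω := by
  induction ω with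
  | nil => exact absurd (by rw [cs.wordProd_nil]; exact N_one cs x) h
  | cons i ω ih =>
    rw [cs.wordProd_cons, N_mul, N_simple] at h
    show x ∈ ((cs.wordProd ω)⁻¹ * cs.simple i * cs.wordProd ω :: cs.rightInvSeq ω)
    rw [List.mem_cons]
    by_cases hx : N cs (cs.wordProd ω) x = 0
    · left
      rw [hx, zero_add] at h
      unfold ind at h
      by_contra hc
      refine h (if_neg fun h2 => hc ?_)
      rw [← h2]; group
    · right
      exact ih hx

theorem N_self {t : W} (ht : cs.IsReflection t) : N cs t t = 1 := by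
  obtain ⟨u, i, rfl⟩ := ht
  have h0 : N cs (u * u⁻¹) (u * cs.simple i * u⁻¹) = 0 := by rw [mul_inv_cancel]; exact N_one cs _
  rw [N_mul] at h0
  have h1 : u⁻¹ * (u * cs.simple i * u⁻¹) * u⁻¹⁻¹ = cs.simple i := by group
  rw [h1] at h0
  rw [N_mul cs (u * cs.simple i) u⁻¹, h1, N_mul, N_simple, ind_self]
  have h2 : cs.simple i * cs.simple i * (cs.simple i)⁻¹ = cs.simple i := by group
  rw [h2]
  calc _ = (N cs u⁻¹ (u * cs.simple i * u⁻¹) + N cs u (cs.simple i)) + 1 := by ring
    _ = 1 := by rw [h0, zero_add]

/-- right inversions -/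
theorem lt_iff {t : W} (ht : cs.IsReflection t) (w : W) : cs.length (w * t) < cs.length w ↔ N cs w t ≠ 0 := by
  have key : ∀ w : W, N cs w t ≠ 0 → cs.length (w * t) < cs.length w := by
    intro w h
    obtain ⟨ω, hω, rfl⟩ := cs.exists_isReduced w
    exact (cs.isRightInversion_of_mem_rightInvSeq hω (N_wordProd cs ω t h)).2
  refine ⟨fun h h0 => ?_, key w⟩
  have h1 : N cs (w * t) t ≠ 0 := by
    rw [N_mul, N_self cs ht, ht.mul_self, one_mul, ht.inv, h0]
    decide
  have h2 := key (w * t) h1
  rw [mul_assoc, ht.mul_self, mul_one] at h2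
  omega

/-- the key lemma -/
theorem key_lemma {t : W} (ht : cs.IsReflection t) (x : W) (i : B) (h : cs.length x < cs.length (t * x)) :
    t * x = x * cs.simple i ∨ cs.length (x * cs.simple i) < cs.length (t * (x * cs.simple i)) := by
  have hlen : ∀ y : W, cs.length (y⁻¹ * t) = cs.length (t * y) := by
    intro y
    rw [← cs.length_inv, mul_inv_rev, inv_inv, ht.inv]
  have h0 : N cs x⁻¹ t = 0 := by
    by_contra hc
    have := (lt_iff cs ht x⁻¹).2 hc
    rw [hlen, cs.length_inv] at this
    omega
  by_cases hx : x⁻¹ * t * x = cs.simple i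
  · left
    rw [← hx]; group
  · right
    have h1 : N cs (x * cs.simple i)⁻¹ t = 0 := by
      rw [mul_inv_rev, cs.inv_simple, N_mul, h0, zero_add, N_simple, inv_inv]
      exact if_neg hx
    have h2 : ¬ cs.length ((x * cs.simple i)⁻¹ * t) < cs.length (x * cs.simple i)⁻¹ := fun hc =>
      (lt_iff cs ht _).1 hc h1
    rw [hlen, cs.length_inv] at h2
    have h3 := ht.length_mul_right_ne (x * cs.simple i)
    omega

end Pool.Agent.Helper15.CX
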