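import Pool.Agent.Helper15.CX.Exch

/-!
# The `k`-absolute length and approximate unimodality of Lipschitz statistics
-/

set_option autoImplicit false
open Classical

namespace Pool.Agent.Helper15.CX

variable {B W : Type*} [Group W] {M : CoxeterMatrix B} (cs : CoxeterSystem M W)

/-- the arrows of the `k`-Bruhat graph, in the form used in the proofs -/
def Arr (k : ℕ) (a b : W) : Prop :=
  cs.IsReflection (a * b⁻¹) ∧ cs.length (a * b⁻¹) ≤ 2 * k + 1 ∧ cs.length a < cs.length b

/-- `w` is the end of a directed path of length `m` from the identity -/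
def Reach (k : ℕ) : ℕ → W → Prop
  | 0, w => w = 1
  | m + 1, w => ∃ a, Reach k m a ∧ Arr cs k a w

theorem reach_mul (k : ℕ) (i : B) : ∀ (m : ℕ) (w : W), Reach cs k m w →
    ∃ m' ≤ m + 1, Reach cs k m' (w * cs.simple i) := by
  intro m
  induction m with
  | zero =>
    intro w hw
    have hw' : w = 1 := hw
    refine ⟨1, le_refl _, 1, rfl, ?_⟩
    subst hw'
    refine ⟨?_, ?_, ?_⟩
    · rw [one_mul, one_mul, cs.inv_simple]; exact cs.isReflection_simple i
    · rw [one_mul, one_mul, cs.inv_simple, cs.length_simple]; omega
    · rw [one_mul, cs.length_one, cs.length_simple]; omega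
  | succ m ih =>
    intro w hw
    obtain ⟨a, ha, h1, h2, h3⟩ := hw
    obtain ⟨m', hm', hr⟩ := ih a ha
    have ht : cs.IsReflection (w * a⁻¹) := by
      have := h1.isReflection_inv
      rwa [mul_inv_rev, inv_inv] at this
    have hw2 : w * a⁻¹ * a = w := by group
    rcases key_lemma cs ht a i (by rw [hw2]; exact h3) with h4 | h4
    · rw [hw2] at h4
      refine ⟨m, by omega, ?_⟩
      have : w * cs.simple i = a := by rw [h4]; simp
      rw [this]; exact ha
    · refine ⟨m' + 1, by omega, a * cs.simple i, hr, ?_⟩
      have h5 : a * cs.simple i * (w * cs.simple i)⁻¹ = a * w⁻¹ := by group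
      refine ⟨by rw [h5]; exact h1, by rw [h5]; exact h2, ?_⟩
      have h6 : w * a⁻¹ * (a * cs.simple i) = w * cs.simple i := by group
      rw [h6] at h4
      exact h4

theorem reach_exists (k : ℕ) (w : W) : ∃ m, Reach cs k m w := by
  refine cs.simple_induction_right (p := fun w => ∃ m, Reach cs k m w) w ⟨0, rfl⟩ ?_
  rintro w i ⟨m, hm⟩
  obtain ⟨m', _, h⟩ := reach_mul cs k i m w hm
  exact ⟨m', h⟩

/-- the `k`-absolute length -/
noncomputable def lk (k : ℕ) (w : W) : ℕ := sInf {m | Reach cs k m w}

theorem lk_spec (k : ℕ) (w : W) : Reach cs k (lk cs k w) w := Nat.sInf_mem (reach_exists cs k w)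

theorem lk_le {k m : ℕ} {w : W} (h : Reach cs k m w) : lk cs k w ≤ m := Nat.sInf_le h

theorem lk_mul_simple (k : ℕ) (w : W) (i : B) : lk cs k (w * cs.simple i) ≤ lk cs k w + 1 := by
  obtain ⟨m', hm', h⟩ := reach_mul cs k i _ w (lk_spec cs k w)
  exact (lk_le cs h).trans hm'

/-! ### counting -/

section count

variable [Fintype W]

/-- twice the sum of the lengths is at most `|W| |T|` -/
theorem sum_length : 2 * ∑ w : W, cs.length w ≤
    Fintype.card W * (Finset.univ.filter (fun t : W => cs.IsReflection t)).card := by
  set T := Finset.univ.filter (fun t : W => cs.IsReflection t) with hT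
  have h1 : ∀ w : W, cs.length w ≤ (T.filter (fun t => cs.length (t * w) < cs.length w)).card := by
    intro w
    obtain ⟨ω, hω, rfl⟩ := cs.exists_isReduced w
    have h2 : cs.length (cs.wordProd ω) = ((cs.leftInvSeq ω).toFinset).card := by
      rw [List.toFinset_card_of_nodup hω.nodup_leftInvSeq, cs.length_leftInvSeq]
      exact hω
    refine h2.trans_le (Finset.card_le_card fun t ht => ?_)
    rw [List.mem_toFinset] at ht
    have h3 := cs.isLeftInversion_of_mem_leftInvSeq hω ht
    rw [Finset.mem_filter, hT, Finset.mem_filter]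
    exact ⟨⟨Finset.mem_univ _, h3.1⟩, h3.2⟩
  have h4 : ∑ w : W, cs.length w ≤ ∑ t ∈ T, (Finset.univ.filter (fun w : W => cs.length (t * w) < cs.length w)).card := by
    refine (Finset.sum_le_sum fun w _ => h1 w).trans (le_of_eq ?_)
    simp only [Finset.card_filter]
    rw [Finset.sum_comm]
  have h5 : ∀ t ∈ T, 2 * (Finset.univ.filter (fun w : W => cs.length (t * w) < cs.length w)).card ≤ Fintype.card W := by
    intro t ht
    have htr : cs.IsReflection t := (Finset.mem_filter.1 ht).2
    have h6 : (Finset.univ.filter (fun w : W => cs.length (t * w) < cs.length w)).card =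
        (Finset.univ.filter (fun w : W => ¬ cs.length (t * w) < cs.length w)).card := by
      refine Finset.card_bij (fun w _ => t * w) ?_ ?_ ?_
      · intro w hw
        rw [Finset.mem_filter] at hw ⊢
        refine ⟨Finset.mem_univ _, ?_⟩
        rw [← mul_assoc, htr.mul_self, one_mul]
        omega
      · intro a _ b _ hab
        exact mul_left_cancel hab
      · intro w hw
        rw [Finset.mem_filter] at hw
        refine ⟨t * w, ?_, by rw [← mul_assoc, htr.mul_self, one_mul]⟩
        rw [Finset.mem_filter]
        refine ⟨Finset.mem_univ _, ?_⟩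
        rw [← mul_assoc, htr.mul_self, one_mul]
        have := htr.length_mul_right_ne w
        omega
    have h7 := Finset.card_filter_add_card_filter_not (s := (Finset.univ : Finset W))
      (fun w : W => cs.length (t * w) < cs.length w)
    rw [Finset.card_univ] at h7
    omega
  calc 2 * ∑ w : W, cs.length w ≤
      2 * ∑ t ∈ T, (Finset.univ.filter (fun w : W => cs.length (t * w) < cs.length w)).card := by omega
    _ = ∑ t ∈ T, 2 * (Finset.univ.filter (fun w : W => cs.length (t * w) < cs.length w)).card := Finset.mul_sum _ _ _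
    _ ≤ ∑ _t ∈ T, Fintype.card W := Finset.sum_le_sum h5
    _ = Fintype.card W * T.card := by rw [Finset.sum_const, smul_eq_mul, mul_comm]

/-- discrete intermediate value theorem -/
theorem ivt (f : ℕ → ℕ) (n l : ℕ) (h0 : f 0 < l) (hn : l < f n) (hs : ∀ p, f (p + 1) ≤ f p + 1) :
    ∃ p < n, f p = l := by
  have hex : ∃ p, l ≤ f p := ⟨n, hn.le⟩
  set p := Nat.find hex with hp
  have h1 : l ≤ f p := Nat.find_spec hex
  have h2 : p ≤ n := Nat.find_min' hex hn.le
  have hp0 : p ≠ 0 := by
    intro h
    rw [h] at h1
    omega
  obtain ⟨q, hq⟩ : ∃ q, p = q + 1 := ⟨p - 1, by omega⟩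
  have h3 : f q < l := by
    have := Nat.find_min hex (m := q) (by omega)
    omega
  have h4 := hs q
  rw [← hq] at h4
  have h5 : f p = l := by omega
  refine ⟨p, ?_, h5⟩
  rcases Nat.lt_or_ge p n with h | h
  · exact h
  · have : p = n := by omega
    rw [this] at h5
    omega

/-- a statistic that changes by at most one under right multiplication by simple reflections -/
theorem separator (f : W → ℕ) (hf : ∀ w i, f (w * cs.simple i) ≤ f w + 1) (l : ℕ) :
    2 * ((Finset.univ.filter (fun w : W => f w < l)).card * (Finset.univ.filter (fun w : W => l < f w)).card) ≤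
      (Finset.univ.filter (fun w : W => f w = l)).card *
        (Fintype.card W * (Finset.univ.filter (fun t : W => cs.IsReflection t)).card) := by
  choose ω hω hw using cs.exists_isReduced
  set A := Finset.univ.filter (fun w : W => f w < l) with hA
  set C := Finset.univ.filter (fun w : W => l < f w) with hC
  set L := Finset.univ.filter (fun w : W => f w = l) with hL
  -- the level is met on the path from `a` to `b`
  have hstep : ∀ (a g : W) (p : ℕ), f (a * cs.wordProd ((ω g).take (p + 1))) ≤ f (a * cs.wordProd ((ω g).take p)) + 1 := by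
    intro a g p
    rcases Nat.lt_or_ge p (ω g).length with h | h
    · rw [List.take_succ_eq_append_getElem h, cs.wordProd_append, cs.wordProd_singleton, ← mul_assoc]
      exact hf _ _
    · rw [List.take_of_length_le (by omega), List.take_of_length_le h]
      omega
  have hmeet : ∀ a b : W, f a < l → l < f b → ∃ p < (ω (a⁻¹ * b)).length,
      f (a * cs.wordProd ((ω (a⁻¹ * b)).take p)) = l := by
    intro a b ha hb
    refine ivt (fun p => f (a * cs.wordProd ((ω (a⁻¹ * b)).take p))) _ l ?_ ?_ (fun p => hstep a _ p)
    · show f (a * cs.wordProd ((ω (a⁻¹ * b)).take 0)) < l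
      rw [List.take_zero, cs.wordProd_nil, mul_one]; exact ha
    · show l < f (a * cs.wordProd ((ω (a⁻¹ * b)).take (ω (a⁻¹ * b)).length))
      rw [List.take_length, ← hw, mul_inv_cancel_left]; exact hb
  choose! P hP1 hP2 using hmeet
  -- the injection
  have hinj : (A ×ˢ C).card ≤ ((Finset.univ : Finset W).sigma (fun g => Finset.range (ω g).length ×ˢ L)).card := by
    refine Finset.card_le_card_of_injOn
      (fun ab => ⟨ab.1⁻¹ * ab.2, (P ab.1 ab.2, ab.1 * cs.wordProd ((ω (ab.1⁻¹ * ab.2)).take (P ab.1 ab.2)))⟩) ?_ ?_
    · rintro ⟨a, b⟩ hab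
      rw [Finset.mem_coe, Finset.mem_product, hA, hC, Finset.mem_filter, Finset.mem_filter] at hab
      rw [Finset.mem_coe, Finset.mem_sigma]
      refine ⟨Finset.mem_univ _, ?_⟩
      rw [Finset.mem_product, Finset.mem_range, hL, Finset.mem_filter]
      exact ⟨hP1 a b hab.1.2 hab.2.2, Finset.mem_univ _, hP2 a b hab.1.2 hab.2.2⟩
    · rintro ⟨a, b⟩ _ ⟨a', b'⟩ _ h
      simp only [Sigma.mk.injEq] at h
      obtain ⟨h1, h2⟩ := h
      have h3 := eq_of_heq h2
      rw [Prod.mk.injEq] at h3
      obtain ⟨h4, h5⟩ := h3
      rw [h4, h1] at h5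
      have h6 := mul_right_cancel h5
      subst h6
      have h7 := mul_left_cancel h1
      rw [h7]
  rw [Finset.card_product, Finset.card_sigma] at hinj
  have h8 : ∑ g : W, (Finset.range (ω g).length ×ˢ L).card = L.card * ∑ g : W, cs.length g := by
    rw [Finset.mul_sum]
    refine Finset.sum_congr rfl fun g _ => ?_
    rw [Finset.card_product, Finset.card_range, mul_comm]
    congr 1
    have := hω g
    unfold CoxeterSystem.IsReduced at this
    rw [← hw] at this
    exact this.symm
  rw [h8] at hinj
  have h9 := sum_length cs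
  calc 2 * (A.card * C.card) ≤ 2 * (L.card * ∑ g : W, cs.length g) := by omega
    _ = L.card * (2 * ∑ g : W, cs.length g) := by ring
    _ ≤ _ := Nat.mul_le_mul_left _ h9

/-- approximate unimodality of Lipschitz statistics -/
theorem approx (f : W → ℕ) (hf : ∀ w i, f (w * cs.simple i) ≤ f w + 1) (l : ℕ) :
    min (Finset.univ.filter (fun w : W => f w < l)).card (Finset.univ.filter (fun w : W => l < f w)).card ≤
      ((Finset.univ.filter (fun t : W => cs.IsReflection t)).card + 1) *
        (Finset.univ.filter (fun w : W => f w = l)).card := by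
  set N := (Finset.univ.filter (fun t : W => cs.IsReflection t)).card with hN
  have h := separator cs f hf l
  rw [← hN] at h
  set A := Finset.univ.filter (fun w : W => f w < l) with hA
  set C := Finset.univ.filter (fun w : W => l < f w) with hC
  set L := Finset.univ.filter (fun w : W => f w = l) with hL
  set m := min A.card C.card with hm
  have hmA : m ≤ A.card := min_le_left _ _
  have hmC : m ≤ C.card := min_le_right _ _
  have hsum : A.card + L.card + C.card = Fintype.card W := by
    rw [hA, hL, hC, Finset.card_filter, Finset.card_filter, Finset.card_filter, ← Finset.sum_add_distrib,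
      ← Finset.sum_add_distrib, ← Finset.card_univ, Finset.card_eq_sum_ones]
    refine Finset.sum_congr rfl fun w _ => ?_
    split_ifs <;> omega
  have hn : 0 < Fintype.card W := Fintype.card_pos
  set n := Fintype.card W with hnn
  have hk1 : m * (A.card + C.card) ≤ 2 * (A.card * C.card) := by nlinarith
  have hmn : m ≤ n := by omega
  have hk2 : m * n ≤ n * ((N + 1) * L.card) := by
    calc m * n = m * (A.card + C.card) + m * L.card := by rw [← hsum]; ring
      _ ≤ L.card * (n * N) + n * L.card := Nat.add_le_add (hk1.trans h) (Nat.mul_le_mul_right _ hmn)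
      _ = n * ((N + 1) * L.card) := by ring
  rw [mul_comm m n] at hk2
  exact Nat.le_of_mul_le_mul_left hk2 hn

end count

end Pool.Agent.Helper15.CX
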