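import Pool.Agent.Helper51.CX.St

set_option autoImplicit false

namespace Pool.Agent.Helper15.CX

open Pool.Agent.Helper51.CX

private theorem sgnmul {K : Type} [Field K] [LinearOrder K] [IsStrictOrderedRing K] (v x : K)
    (hv : v = 1 ∨ v = -1) : -|x| ≤ v * x := by
  have h1 := neg_abs_le x
  have h2 := le_abs_self x
  rcases hv with rfl | rfl
  · linarith
  · linarith

theorem hD2 : StBDP → StBDD → StD2 := by
  intro hP hD K _ _ _ j z d hz hf hj hel a b ha hb hab hma hmb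
  obtain ⟨p5, pn, pm, -⟩ := hP K j hz.lo hz.hi z hz.fe hz.tj
  have ht' : L j (z + d) = 10 ^ 60 := by rw [L_add, hj, add_zero]; exact hz.tj
  obtain ⟨q5, qn, qm, -⟩ := hP K j hz.lo hz.hi (z + d) hf ht'
  obtain ⟨hd, -⟩ := hD K j hz.lo hz.hi d
  have hd5 := hd hj
  have hn := nn_le z d
  have hm := mm_le z d
  obtain ⟨-, s1, s2, s3, -⟩ := sgn (K := K) j hz.lo hz.hi
  have z5 : z 5 ≤ 1 + 1 / 100 := by
    have := (abs_le.1 (le_refl |z 5 - 1|)).2
    linarith
  have w5 : (z + d) 5 ≤ 1 + 1 / 100 := by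
    have := (abs_le.1 (le_refl |(z + d) 5 - 1|)).2
    linarith
  have d5 : |d 5| ≤ 1 / 100 := by linarith
  have lem : ∀ (v : K) (i : Fin 6), (v = 1 ∨ v = -1) → 10 ^ 5 * |v * z i - 1| ≤ 1 →
      |(z + d) i| ≤ (z + d) 5 → -(21 / 10) ≤ v * d i ∧ (MZ i d → -(1 / 100) ≤ v * d i) := by
    intro v i hv h1 h2
    have h3 := sgnmul v ((z + d) i) hv
    have h4 := (abs_le.1 (le_refl |v * z i - 1|)).2
    have h5 : v * (z + d) i = v * z i + v * d i := by rw [Pi.add_apply, mul_add]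
    have h6 := sgnmul v (d i) hv
    refine ⟨by linarith, fun h7 => ?_⟩
    have h8 : |d i| = |d 5| := h7
    linarith
  obtain ⟨a2, b2⟩ := lem _ 2 s1 hz.n2 hf.z2
  obtain ⟨a3, b3⟩ := lem _ 3 s2 hz.n3 hf.z3
  obtain ⟨a4, b4⟩ := lem _ 4 s3 hz.n4 hf.z4
  have hel' : (v1 j : K) * d 2 + (v2 j : K) * d 3 + (v3 j : K) * d 4 ≤ -(2999 / 1000) := hel
  rcases ha with rfl | rfl | rfl <;> rcases hb with rfl | rfl | rfl
  · exact hab rfl
  · have := b2 hma
    have := b3 hmb
    linarith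
  · have := b2 hma
    have := b4 hmb
    linarith
  · have := b3 hma
    have := b2 hmb
    linarith
  · exact hab rfl
  · have := b3 hma
    have := b4 hmb
    linarith
  · have := b4 hma
    have := b2 hmb
    linarith
  · have := b4 hma
    have := b3 hmb
    linarith
  · exact hab rfl

end Pool.Agent.Helper15.CX
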